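import Pool.Agent.W_7d29a1_V.DefsA70

/-!
The bootstrap in one direction `u`, at a tilt `h` with
`lam h + s r ≤ lam (h + r u) ≤ lam h + s r + C |r| ^ p`: definitions.
-/

namespace Pool.Agent.W_7d29a1_V

open MeasureTheory ProbabilityTheory Filter Topology Pool.Agent.W_MP_7d29a1_pr
  Pool.Agent.W_7d29a1_h46 Pool.Agent.W_7d29a1_h46u Pool.Agent.W_7d29a1_D2

/-- The walks with `|⟨u, S_i⟩ - i s| ≤ W` for all `i ≤ n`. -/
def slab (d n : ℕ) (u : Vec d) (s W : ℝ) : Set (Fin n → Step d) :=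
  {q | ∀ i ≤ n, |inner ℝ u (emb (pos q i)) - i * s| ≤ W}

/-- The moments at the tilts `h + a u` near `h` are those of a variable of size
`n ^ x + (n |a| ^ (p - 1)) ^ (1 / 2)`, up to `n ^ e`. -/
def FlL {d : ℕ} (ρ : Measure ℝ) (β : ℝ) (h u : Vec d) (p x : ℝ) : Prop :=
  ∀ e : ℝ, 0 < e → ∀ q : ℕ, ∃ r : ℝ, 0 < r ∧ ∃ C : ℝ, ∀ a : ℝ, |a| < r →
    ∀ n : ℕ, 1 ≤ n →
      ∫ η, |X β (h + a • u) η n - A ρ β (h + a • u) n| ^ q ∂(law d ρ) ≤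
        C * ((n : ℝ) ^ e * ((n : ℝ) ^ x + Real.sqrt (n * |a| ^ (p - 1)))) ^ q

/-- The polymer at the tilts `h + a u` near `h` stays in the slab of width
`n ^ e (n |a| ^ (p - 1) + n ^ (1 + (x - 1) (p - 1) / p))` around `i s`. -/
def TubL {d : ℕ} (ρ : Measure ℝ) (β : ℝ) (h u : Vec d) (s p x : ℝ) : Prop :=
  ∀ e : ℝ, 0 < e → ∀ Q : ℕ, ∃ r : ℝ, 0 < r ∧ ∃ C : ℝ, ∀ a : ℝ, |a| < r →
    ∀ n : ℕ, 1 ≤ n → ∀ W : ℝ,
      (n : ℝ) ^ e * (n * |a| ^ (p - 1) + (n : ℝ) ^ aX p x) ≤ W →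
        ∫ η, (1 - PolT β (h + a • u) η (slab d n u s W)) ∂(law d ρ) ≤ C * (n : ℝ) ^ (-(Q : ℝ))

/-- The fluctuations of the free energy are at most the square root of the width of the slab, for
every `n` and every width `W`. -/
def TubeL (d : ℕ) (ρ : Measure ℝ) (β R : ℝ) (u : Vec d) : Prop :=
  ∀ (ε : ℝ) (q : ℕ), 0 < ε → ∃ (Q : ℕ) (C : ℝ), ∀ h : Vec d, ‖h‖ ≤ R →
  ∀ (s : ℝ) (n : ℕ), 1 ≤ n → ∀ W : ℝ, 1 ≤ W → W ≤ n →
    ∫ η, (1 - PolT β h η (slab d n u s W)) ∂(law d ρ) ≤ (n : ℝ) ^ (-(Q : ℝ)) →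
    ∫ η, |X β h η n - A ρ β h n| ^ q ∂(law d ρ) ≤ (C * Real.sqrt W * (n : ℝ) ^ ε) ^ q

open Classical in
/-- The mass of the walks with `|t| w ≤ t (⟨u, S_i⟩ - i s)`. -/
noncomputable def FarL {d : ℕ} (β : ℝ) (h : Vec d) (η : Env d) (n i : ℕ) (u : Vec d) (s : ℝ)
    (t w : ℝ) : ℝ :=
  ZT β h η {q : Fin n → Step d | |t| * w ≤ t * (inner ℝ u (emb (pos q i)) - i * s)} / Z β h η n

/-- The good event for the parameters `t`, `w` in the direction `u`. -/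
structure GdS {d : ℕ} (ρ : Measure ℝ) (β : ℝ) (h u : Vec d) (t w : ℝ) (n : ℕ) (η : Env d) :
    Prop where
  side : ∀ i ≤ n, |X β (h + t • u) η i - A ρ β (h + t • u) i| ≤ w ∧
    |X β (h + (-t) • u) η i - A ρ β (h + (-t) • u) i| ≤ w
  mid : ∀ i ≤ n, ∀ y ∈ boxF d n, |X β h (sh i y η) (n - i) - A ρ β h (n - i)| ≤ w

/-- **The frozen statement of the far part** (deterministic). -/
def GoodLS (d : ℕ) (ρ : Measure ℝ) : Prop :=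
  ∀ (β : ℝ) (h u : Vec d) (s E t w R r : ℝ) (n : ℕ) (η : Env d), 0 < t → 0 ≤ E →
    (∀ a : ℝ, |a| = t → lam ρ β (h + a • u) ≤ lam ρ β h + s * a + E) →
    n * lam ρ β h - A ρ β h n ≤ R → GdS ρ β h u t w n η →
    1 - PolT β h η (slab d n u s r) ≤ 2 * (n + 1) * Real.exp (n * E + 3 * w + R - t * r)

end Pool.Agent.W_7d29a1_V
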