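import Pool.Agent.W_7d29a1_V1.DefsL96
import Pool.Agent.W_7d29a1_h46u.TubV

/-!
The mass outside of a slab: the deterministic part.
-/

namespace Pool.Agent.W_7d29a1_V

open MeasureTheory ProbabilityTheory Filter Topology Pool.Agent.W_MP_7d29a1_pr
  Pool.Agent.W_7d29a1_h46 Pool.Agent.W_7d29a1_h46u Pool.Agent.W_7d29a1_D2

namespace FarL96

variable {d : ℕ} {ρ : Measure ℝ} [IsProbabilityMeasure ρ]

lemma inner_tilt (h u : Vec d) (t : ℝ) (x : Vec d) :
    inner ℝ (h + t • u) x = inner ℝ h x + t * inner ℝ u x := by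
  rw [inner_add_left, real_inner_smul_left]

lemma wgt_tilt (β : ℝ) (h u : Vec d) (η : Env d) {n : ℕ} (t : ℝ) (q : Fin n → Step d) :
    wgt β (h + t • u) η q = Real.exp (t * inner ℝ u (emb (pos q n))) * wgt β h η q := by
  unfold wgt
  rw [← Real.exp_add, inner_tilt]
  congr 1
  ring

theorem far_leL (hd : 0 < d) (β : ℝ) (h u : Vec d) (η : Env d) {i n : ℕ} (hi : i ≤ n)
    (s t w : ℝ) {M : ℝ} (hM : ∀ y ∈ boxF d i, Z β h (sh i y η) (n - i) ≤ M) :
    FarL β h η n i u s t w ≤
      Real.exp (-(t * (i * s)) - |t| * w) * Z β (h + t • u) η i * M / Z β h η n := by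
  classical
  obtain ⟨k, rfl⟩ := Nat.exists_eq_add_of_le hi
  have hk : i + k - i = k := by omega
  rw [hk] at hM
  unfold FarL
  refine div_le_div_of_nonneg_right ?_ (Z_pos hd β h η (i + k)).le
  unfold ZT
  rw [sum_glue, Z_eq β (h + t • u) η i, Finset.mul_sum, Finset.sum_mul]
  refine Finset.sum_le_sum fun q _ => ?_
  have hw0 : 0 < wgt β h η q := Real.exp_pos _
  have hZk : 0 ≤ Z β h (sh i (pos q i) η) k := (Z_pos hd β h _ k).le
  have hMs := hM (pos q i) (pos_mem_box q i)
  by_cases hs : |t| * w ≤ t * (inner ℝ u (emb (pos q i)) - i * s)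
  · have e1 : ∑ q' : Fin k → Step d, (if Fin.append q q' ∈ {q : Fin (i + k) → Step d |
        |t| * w ≤ t * (inner ℝ u (emb (pos q i)) - i * s)} then wgt β h η (Fin.append q q')
          else 0) = wgt β h η q * Z β h (sh i (pos q i) η) k := by
      rw [Z_eq, Finset.mul_sum]
      refine Finset.sum_congr rfl fun q' _ => ?_
      rw [if_pos, wgt_glue]
      rw [Set.mem_setOf_eq, pos_glue_le q q' le_rfl]
      exact hs
    rw [e1, wgt_tilt]
    have e2 : (1 : ℝ) ≤ Real.exp (-(t * (i * s)) - |t| * w) *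
        Real.exp (t * inner ℝ u (emb (pos q i))) := by
      rw [← Real.exp_add]
      refine Real.one_le_exp ?_
      have e3 : -(t * (i * s)) - |t| * w + t * inner ℝ u (emb (pos q i)) =
          t * (inner ℝ u (emb (pos q i)) - i * s) - |t| * w := by ring
      rw [e3]
      linarith
    calc wgt β h η q * Z β h (sh i (pos q i) η) k ≤ wgt β h η q * M :=
          mul_le_mul_of_nonneg_left hMs hw0.le
      _ ≤ (Real.exp (-(t * (i * s)) - |t| * w) * Real.exp (t * inner ℝ u (emb (pos q i)))) *
          (wgt β h η q * M) :=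
          le_mul_of_one_le_left (mul_nonneg hw0.le (hZk.trans hMs)) e2
      _ = _ := by ring
  · have e1 : ∑ q' : Fin k → Step d, (if Fin.append q q' ∈ {q : Fin (i + k) → Step d |
        |t| * w ≤ t * (inner ℝ u (emb (pos q i)) - i * s)} then wgt β h η (Fin.append q q')
          else 0) = 0 := by
      refine Finset.sum_eq_zero fun q' _ => ?_
      rw [if_neg]
      rw [Set.mem_setOf_eq, pos_glue_le q q' le_rfl]
      exact hs
    rw [e1]
    exact mul_nonneg (mul_nonneg (Real.exp_pos _).le (Real.exp_pos _).le) (hZk.trans hMs)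

/-- If a walk is not in the slab then it is far at some time. -/
theorem one_sub_leL (hd : 0 < d) (β : ℝ) (h u : Vec d) (η : Env d) (n : ℕ) (s : ℝ) {t r : ℝ}
    (ht : 0 < t) :
    1 - PolT β h η (slab d n u s r) ≤ ∑ i ∈ Finset.range (n + 1),
      (FarL β h η n i u s t r + FarL β h η n i u s (-t) r) := by
  classical
  have hZ := Z_pos hd β h η n
  set F : ℝ → ℕ → Set (Fin n → Step d) := fun t i =>
    {q : Fin n → Step d | |t| * r ≤ t * (inner ℝ u (emb (pos q i)) - i * s)} with hF
  have hFar : ∀ i t, FarL β h η n i u s t r = ZT β h η (F t i) / Z β h η n :=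
    fun i t => rfl
  have hPol : 1 - PolT β h η (slab d n u s r) =
      (Z β h η n - ZT β h η (slab d n u s r)) / Z β h η n := by
    rw [sub_div, div_self hZ.ne']
    rfl
  have hsum : ∑ i ∈ Finset.range (n + 1),
      (FarL β h η n i u s t r + FarL β h η n i u s (-t) r) =
      (∑ i ∈ Finset.range (n + 1),
        (ZT β h η (F t i) + ZT β h η (F (-t) i))) / Z β h η n := by
    rw [Finset.sum_div]
    refine Finset.sum_congr rfl fun i _ => ?_
    rw [hFar, hFar, add_div]
  rw [hPol, hsum]
  refine div_le_div_of_nonneg_right ?_ hZ.le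
  have e1 : ∑ i ∈ Finset.range (n + 1),
        (ZT β h η (F t i) + ZT β h η (F (-t) i)) =
      ∑ q : Fin n → Step d, ∑ i ∈ Finset.range (n + 1),
        ((if q ∈ F t i then wgt β h η q else 0) +
          (if q ∈ F (-t) i then wgt β h η q else 0)) := by
    rw [Finset.sum_comm (s := (Finset.univ : Finset (Fin n → Step d)))]
    refine Finset.sum_congr rfl fun i _ => ?_
    unfold ZT
    rw [← Finset.sum_add_distrib]
  have e2 : Z β h η n - ZT β h η (slab d n u s r) =
      ∑ q : Fin n → Step d, (if q ∈ slab d n u s r then 0 else wgt β h η q) := by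
    rw [Z_eq]
    unfold ZT
    rw [← Finset.sum_sub_distrib]
    refine Finset.sum_congr rfl fun q _ => ?_
    split_ifs
    · rw [sub_self]
    · rw [sub_zero]
  rw [e1, e2]
  refine Finset.sum_le_sum fun q _ => ?_
  have hw0 : 0 < wgt β h η q := Real.exp_pos _
  have hnn : ∀ i ∈ Finset.range (n + 1),
      0 ≤ (if q ∈ F t i then wgt β h η q else 0) +
        (if q ∈ F (-t) i then wgt β h η q else 0) := by
    intro i _
    refine add_nonneg ?_ ?_ <;> split_ifs <;> first | exact hw0.le | exact le_rfl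
  by_cases hs : q ∈ slab d n u s r
  · rw [if_pos hs]
    exact Finset.sum_nonneg fun i hi => hnn i hi
  · rw [if_neg hs]
    have h1 : ∃ i ≤ n, r < |inner ℝ u (emb (pos q i)) - i * s| := by
      unfold slab at hs
      rw [Set.mem_setOf_eq] at hs
      push Not at hs
      exact hs
    obtain ⟨i, hi, hr⟩ := h1
    have hmem : i ∈ Finset.range (n + 1) := Finset.mem_range.2 (by omega)
    have h2 : wgt β h η q ≤ (if q ∈ F t i then wgt β h η q else 0) +
        (if q ∈ F (-t) i then wgt β h η q else 0) := by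
      rcases le_abs'.1 hr.le with h3 | h3
      · have h4 : q ∈ F (-t) i := by
          rw [hF, Set.mem_setOf_eq, abs_neg, abs_of_pos ht]
          nlinarith [mul_le_mul_of_nonneg_left h3 ht.le]
        rw [if_pos h4]
        have h5 : 0 ≤ (if q ∈ F t i then wgt β h η q else 0) := by
          split_ifs
          · exact hw0.le
          · exact le_rfl
        linarith
      · have h4 : q ∈ F t i := by
          rw [hF, Set.mem_setOf_eq, abs_of_pos ht]
          exact mul_le_mul_of_nonneg_left h3 ht.le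
        rw [if_pos h4]
        have h5 : 0 ≤ (if q ∈ F (-t) i then wgt β h η q else 0) := by
          split_ifs
          · exact hw0.le
          · exact le_rfl
        linarith
    refine h2.trans ?_
    exact Finset.single_le_sum
      (f := fun i => ((if q ∈ F t i then wgt β h η q else 0) +
        (if q ∈ F (-t) i then wgt β h η q else 0)))
      (fun i hi => hnn i hi) hmem

lemma farL_exp (hd : 0 < d) (hρ : EM ρ) {β : ℝ} {h u : Vec d} {E s a t w R r : ℝ} {n : ℕ}
    {η : Env d} (ha : |a| = t) (hE0 : 0 ≤ E)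
    (hE : lam ρ β (h + a • u) ≤ lam ρ β h + s * a + E)
    (hR : n * lam ρ β h - A ρ β h n ≤ R)
    (hside : ∀ i ≤ n, |X β (h + a • u) η i - A ρ β (h + a • u) i| ≤ w)
    (hmid : ∀ i ≤ n, ∀ y ∈ boxF d n, |X β h (sh i y η) (n - i) - A ρ β h (n - i)| ≤ w)
    {i : ℕ} (hi : i ≤ n) :
    FarL β h η n i u s a r ≤ Real.exp (n * E + 3 * w + R - t * r) := by
  have hM : ∀ y ∈ boxF d i, Z β h (sh i y η) (n - i) ≤ Real.exp (A ρ β h (n - i) + w) := by
    intro y hy
    rw [TubV_exp hd]
    refine Real.exp_le_exp.2 ?_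
    have := (abs_le.1 (hmid i hi y (TubV_box hi hy))).2
    linarith
  refine (far_leL hd β h u η hi s a r hM).trans ?_
  rw [TubV_exp hd β (h + a • u) η i, TubV_exp hd β h η n, ← Real.exp_add, ← Real.exp_add,
    ← Real.exp_sub]
  refine Real.exp_le_exp.2 ?_
  have h1 := (abs_le.1 (hside i hi)).2
  have h2 := A_le_lam hd hρ β (h + a • u) i
  have h3 := A_le_lam hd hρ β h (n - i)
  have h4 := hmid 0 (Nat.zero_le n) 0 (TubV_zero n)
  rw [TubV_sh, Nat.sub_zero] at h4
  have h5 := (abs_le.1 h4).1
  have hi0 : (0 : ℝ) ≤ i := Nat.cast_nonneg _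
  have hin : (i : ℝ) ≤ n := by exact_mod_cast hi
  have h6 := mul_le_mul_of_nonneg_left hE hi0
  have h7 : ((n - i : ℕ) : ℝ) = n - i := by
    rw [Nat.cast_sub hi]
  rw [h7] at h3
  have h9 : (i : ℝ) * E ≤ n * E := mul_le_mul_of_nonneg_right hin hE0
  rw [ha]
  nlinarith

end FarL96

open FarL96

/-- The mass outside of the slab on the good event. -/
theorem goodL (d : ℕ) (ρ : Measure ℝ) [IsProbabilityMeasure ρ] (hd : 0 < d) (hρ : EM ρ) :
    GoodLS d ρ := by
  intro β h u s E t w R r n η ht hE0 hE hR hg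
  refine (one_sub_leL hd β h u η n s (r := r) ht).trans ?_
  have h1 : ∀ i ∈ Finset.range (n + 1),
      (FarL β h η n i u s t r + FarL β h η n i u s (-t) r) ≤
      2 * Real.exp (n * E + 3 * w + R - t * r) := by
    intro i hi
    have hi' : i ≤ n := Nat.lt_succ_iff.1 (Finset.mem_range.1 hi)
    have a1 := farL_exp (r := r) hd hρ (abs_of_pos ht) hE0 (hE t (abs_of_pos ht)) hR
      (fun i hi => (hg.side i hi).1) hg.mid hi'
    have a2 := farL_exp (r := r) hd hρ (a := -t) (t := t) (by rw [abs_neg, abs_of_pos ht]) hE0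
      (hE (-t) (by rw [abs_neg, abs_of_pos ht])) hR
      (fun i hi => (hg.side i hi).2) hg.mid hi'
    linarith
  refine (Finset.sum_le_sum h1).trans ?_
  rw [Finset.sum_const, Finset.card_range, nsmul_eq_mul]
  push_cast
  linarith

end Pool.Agent.W_7d29a1_V
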